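import Pool.Agent.helper38.Neg.Nondet

/-!
Circuits whose NOT gates do not see a set `T` of inputs, and a language (the polynomial function
with pointers) that is hard for such circuits for every large set `T`.
-/

namespace Pool.Agent.helper41.Semi

open Pool.Agent.helper38.Neg

/-- The circuit `C` is monotone in the inputs `T`: the values of its NOT gates do not change when
only inputs in `T` are changed. -/
def MonotoneIn {n s : ℕ} (C : Circuit n s) (T : Finset (Fin n)) : Prop :=
  ∀ x y : Fin n → Bool, (∀ i ∉ T, x i = y i) → C.notVals x = C.notVals y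

/-- Position of the rail for the value `v` of the bit `r` of the pointer `j`. -/
def rail (n j r : ℕ) (v : Bool) : ℕ := scales n + (2 * (j * scales n + r) + v.toNat)

/-- First data position for the scale `e`. -/
def dataStart (n e : ℕ) : ℕ := scales n + 2 * (16 ^ e * scales n)

/-- The pointer `j` points to the position `p`. -/
def Points {n : ℕ} (x : Fin n → Bool) (j p : ℕ) : Prop :=
  ∀ r < scales n, get x (rail n j r (p.testBit r)) = true

open Classical in
/-- The values at the data positions to which the pointers of scale `e` point. -/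
noncomputable def deref {n : ℕ} (x : Fin n → Bool) (e : ℕ) : Fld e × Fld e → Bool := fun k =>
  decide (∃ p, dataStart n e ≤ p ∧ Points x (idx e k : ℕ) p ∧ get x p = true)

/-- The language: the input selects a scale `e` and contains `16 ^ e` pointers to data positions;
the polynomial function has to accept the values at these positions. -/
noncomputable def slang : Lang := fun n x =>
  ∃ e, 5 ≤ e ∧ e < scales n ∧ dataStart n e ≤ n ∧ get x e = true ∧
    PolyFn (Fld e) (2 ^ e / e) (deref x e)

lemma get_mono {n : ℕ} {x y : Fin n → Bool} (h : x ≤ y) (i : ℕ) (hx : get x i = true) :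
    get y i = true := by
  unfold Pool.Agent.helper38.Neg.get at hx ⊢
  split_ifs at hx ⊢ with h1
  have := h ⟨i, h1⟩
  rw [hx] at this
  exact le_antisymm (by cases y ⟨i, h1⟩ <;> simp) this

lemma slang_mono (n : ℕ) : Monotone (slang n) := by
  classical
  rintro x y hxy ⟨e, h1, h2, h3, h4, h5⟩
  refine ⟨e, h1, h2, h3, get_mono hxy _ h4, polyFn_mono _ ?_ h5⟩
  intro k
  by_cases hk : deref x e k = true
  · have : deref y e k = true := by
      unfold deref at hk ⊢
      rw [decide_eq_true_iff] at hk ⊢
      obtain ⟨p, g1, g2, g3⟩ := hk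
      exact ⟨p, g1, fun r hr => get_mono hxy _ (g2 r hr), get_mono hxy _ g3⟩
    rw [this]
    cases deref x e k <;> simp
  · have : deref x e k = false := by simpa using hk
    rw [this]
    simp

lemma lt_two_pow_scales (n : ℕ) : n < 2 ^ scales n := Nat.lt_pow_succ_log_self (by norm_num) n

lemma rail_inj {n j j' r r' : ℕ} {v v' : Bool} (hr : r < scales n) (hr' : r' < scales n)
    (h : rail n j r v = rail n j' r' v') : j = j' ∧ r = r' ∧ v = v' := by
  unfold rail at h
  have hv : v.toNat ≤ 1 := Bool.toNat_le v
  have hv' : v'.toNat ≤ 1 := Bool.toNat_le v'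
  have h1 : j * scales n + r = j' * scales n + r' := by omega
  have h2 : v.toNat = v'.toNat := by omega
  have hS : 0 < scales n := by unfold scales; omega
  have h3 : j = j' := by
    have e1 : (j * scales n + r) / scales n = j := by
      rw [mul_comm, Nat.mul_add_div hS, Nat.div_eq_of_lt hr, add_zero]
    have e2 : (j' * scales n + r') / scales n = j' := by
      rw [mul_comm, Nat.mul_add_div hS, Nat.div_eq_of_lt hr', add_zero]
    rw [← e1, ← e2, h1]
  refine ⟨h3, ?_, ?_⟩
  · rw [h3] at h1; omega
  · cases v <;> cases v' <;> simp_all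

lemma rail_lt {n e j r : ℕ} {v : Bool} (hj : j < 16 ^ e) (hr : r < scales n) :
    rail n j r v < dataStart n e := by
  unfold rail dataStart
  have hv : v.toNat ≤ 1 := Bool.toNat_le v
  have h1 : (j + 1) * scales n ≤ 16 ^ e * scales n := Nat.mul_le_mul_right _ hj
  have h2 : (j + 1) * scales n = j * scales n + scales n := by ring
  omega

lemma rail_ge {n j r : ℕ} {v : Bool} : scales n ≤ rail n j r v := by
  unfold rail; omega

lemma idx_lt {e : ℕ} (he : 5 ≤ e) (k : Fld e × Fld e) : (idx e k : ℕ) < 16 ^ e := by
  rw [← fld_sq_card he]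
  exact (idx e k).2

open Classical in
/-- The input that selects the scale `e` and lets the pointers point to the positions `ι k`; all
other positions are zero. -/
noncomputable def base (n e : ℕ) (ι : Fld e × Fld e → Fin n) : Fin n → Bool := fun i =>
  decide ((i : ℕ) = e ∨ ∃ k, ∃ r < scales n, (i : ℕ) = rail n (idx e k : ℕ) r ((ι k : ℕ).testBit r))

open Classical in
/-- Placing the values `y` at the positions `ι`. -/
noncomputable def put (n e : ℕ) (ι : Fld e × Fld e → Fin n) (y : Fld e × Fld e → Bool) :
    Fin n → Bool := fun i =>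
  if h : ∃ k, ι k = i then y h.choose else base n e ι i

lemma put_iff {n e : ℕ} (he : 5 ≤ e) (he2 : e < scales n) (hn : dataStart n e ≤ n)
    (ι : Fld e × Fld e → Fin n) (hι : Function.Injective ι)
    (hd : ∀ k, dataStart n e ≤ (ι k : ℕ)) (y : Fld e × Fld e → Bool) :
    slang n (put n e ι y) ↔ PolyFn (Fld e) (2 ^ e / e) y := by
  classical
  have hlow : ∀ i : ℕ, i < dataStart n e → (get (put n e ι y) i = true ↔
      i = e ∨ ∃ k, ∃ r < scales n, i = rail n (idx e k : ℕ) r ((ι k : ℕ).testBit r)) := by
    intro i hi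
    unfold Pool.Agent.helper38.Neg.get
    rw [dif_pos (by omega : i < n)]
    unfold put
    rw [dif_neg]
    · unfold base
      rw [decide_eq_true_iff]
    · rintro ⟨k, hk⟩
      have := hd k
      rw [hk] at this
      simp only at this
      omega
  have hput : ∀ k, put n e ι y (ι k) = y k := by
    intro k
    unfold put
    have hex : ∃ k', ι k' = ι k := ⟨k, rfl⟩
    rw [dif_pos hex]
    congr 1
    exact hι hex.choose_spec
  have hSd : scales n ≤ dataStart n e := by unfold dataStart; omega
  have hpts : ∀ k p, p < n → (Points (put n e ι y) (idx e k : ℕ) p ↔ p = ι k) := by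
    intro k p hp
    unfold Points
    constructor
    · intro h
      apply Nat.eq_of_testBit_eq
      intro r
      by_cases hr : r < scales n
      · have h1 := (hlow _ (rail_lt (idx_lt he k) hr)).1 (h r hr)
        rcases h1 with h1 | ⟨k', r', hr', h1⟩
        · have := @rail_ge n (idx e k : ℕ) r (p.testBit r)
          omega
        · obtain ⟨e1, e2, e3⟩ := rail_inj hr hr' h1
          have e4 : k = k' := (idx e).injective (Fin.ext e1)
          rw [e3, ← e2, e4]
      · have h2 : ∀ q, q < n → q.testBit r = false := by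
          intro q hq
          apply Nat.testBit_lt_two_pow
          calc q < n := hq
            _ < 2 ^ scales n := lt_two_pow_scales n
            _ ≤ 2 ^ r := Nat.pow_le_pow_right (by norm_num) (by omega)
        rw [h2 p hp, h2 _ (ι k).2]
    · intro h r hr
      rw [hlow _ (rail_lt (idx_lt he k) hr)]
      exact Or.inr ⟨k, r, hr, by rw [h]⟩
  have hderef : deref (put n e ι y) e = y := by
    funext k
    rw [Bool.eq_iff_iff]
    unfold deref
    rw [decide_eq_true_iff]
    constructor
    · rintro ⟨p, h1, h2, h3⟩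
      have hp : p < n := by
        by_contra hcon
        unfold Pool.Agent.helper38.Neg.get at h3
        rw [dif_neg hcon] at h3
        exact absurd h3 (by simp)
      have h4 := (hpts k p hp).1 h2
      subst h4
      unfold Pool.Agent.helper38.Neg.get at h3
      rw [dif_pos hp] at h3
      rw [← hput k]
      exact h3
    · intro h
      refine ⟨ι k, hd k, (hpts k _ (ι k).2).2 rfl, ?_⟩
      unfold Pool.Agent.helper38.Neg.get
      rw [dif_pos (ι k).2]
      rw [← hput k] at h
      exact h
  constructor
  · rintro ⟨e', h1, h2, h3, h4, h5⟩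
    have h6 := (hlow e' (by omega)).1 h4
    rcases h6 with h6 | ⟨k, r, hr, h6⟩
    · subst h6
      rwa [hderef] at h5
    · have := @rail_ge n (idx e k : ℕ) r ((ι k : ℕ).testBit r)
      omega
  · intro h
    refine ⟨e, he, he2, hn, (hlow e (by omega)).2 (Or.inl rfl), ?_⟩
    rwa [hderef]

/-- The size bound at the scale `e`. -/
theorem size_at_scale {n s e : ℕ} (he : 5 ≤ e) (he2 : e < scales n) (T : Finset (Fin n))
    (hT : dataStart n e + 16 ^ e ≤ T.card) (C : Circuit n s) (o : Fin (n + s))
    (hC : C.Computes o (slang n)) (hM : MonotoneIn C T) : 2 ^ (2 ^ (e - 1)) ≤ s + 1 := by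
  classical
  have hn : dataStart n e ≤ n := by
    have h16 : 0 < 16 ^ e := by positivity
    have : T.card ≤ n := by simpa using Finset.card_le_univ T
    omega
  set T' := T.filter (fun i : Fin n => dataStart n e ≤ (i : ℕ)) with hT'
  have hcard : 16 ^ e ≤ T'.card := by
    have h1 : T.card = T'.card + (T.filter (fun i : Fin n => ¬ dataStart n e ≤ (i : ℕ))).card :=
      (Finset.card_filter_add_card_filter_not (s := T)
        (p := fun i : Fin n => dataStart n e ≤ (i : ℕ))).symm
    have h2 : (T.filter (fun i : Fin n => ¬ dataStart n e ≤ (i : ℕ))).card ≤ dataStart n e := by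
      have h3 : (T.filter (fun i : Fin n => ¬ dataStart n e ≤ (i : ℕ))).card ≤
          (Finset.range (dataStart n e)).card := by
        apply Finset.card_le_card_of_injOn (fun i : Fin n => (i : ℕ))
        · intro i hi
          simp only [Finset.coe_filter, Set.mem_setOf_eq] at hi
          simp only [Finset.coe_range, Set.mem_Iio]
          omega
        · intro i _ j _ hij
          exact Fin.ext hij
      simpa using h3
    omega
  have hemb : Nonempty ((Fld e × Fld e) ↪ T') := by
    apply Function.Embedding.nonempty_of_card_le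
    rw [fld_sq_card he, Fintype.card_coe]
    exact hcard
  obtain ⟨emb⟩ := hemb
  let ι : Fld e × Fld e → Fin n := fun k => (emb k : Fin n)
  have hι : Function.Injective ι := fun a b hab => emb.injective (Subtype.ext hab)
  have hmem : ∀ k, ι k ∈ T ∧ dataStart n e ≤ (ι k : ℕ) := by
    intro k
    have h0 : (emb k : Fin n) ∈ T' := (emb k).2
    exact Finset.mem_filter.1 h0
  let X : (Fld e × Fld e → Bool) → (Fin n → Bool) := put n e ι
  let b : Fin n → Bool := X (fun _ => false)
  have hXb : ∀ y, C.notVals (X y) = C.notVals b := by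
    intro y
    apply hM
    intro i hi
    have : ¬ ∃ k, ι k = i := by
      rintro ⟨k, hk⟩
      exact hi (hk ▸ (hmem k).1)
    simp only [X, b, put]
    rw [dif_neg this, dif_neg this]
  have hXav : ∀ i, Avail [] (fun y => X y i) := by
    intro i
    by_cases h : ∃ k, ι k = i
    · refine Or.inr (Or.inr ⟨h.choose, ?_⟩)
      funext y
      simp only [X, put]
      rw [dif_pos h]
    · refine Or.inr (Or.inl ⟨base n e ι i, ?_⟩)
      funext y
      simp only [X, put]
      rw [dif_neg h]
  obtain ⟨L, hL, hlen, hk, -⟩ := chain_build C b X hXav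
  have hfin := poly_lower_exp he (fld_card he) (MonoChain.or hL (hk o) (hk o))
    List.mem_cons_self (fun y => by
      rw [Bool.or_self, (star_of_eq C (hXb y)).1, hC,
        put_iff he he2 hn ι hι (fun k => (hmem k).2) y])
  refine hfin.trans ?_
  simp only [List.length_cons]
  omega

/-- The size bound. -/
theorem size_bound {n s : ℕ} (hn : 2 ≤ n) (T : Finset (Fin n)) (C : Circuit n s)
    (o : Fin (n + s)) (hC : C.Computes o (slang n)) (hM : MonotoneIn C T) :
    (2 : ℝ) ^ ((1 / 128 : ℝ) * ((T.card : ℝ) / Real.log n) ^ ((1 : ℝ) / 4)) ≤ s + 2 := by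
  have hlogn : 0 < Real.log n := Real.log_pos (by exact_mod_cast hn)
  have hS : 0 < scales n := by unfold scales; omega
  set t := T.card with ht
  have htn : t ≤ n := by simpa using Finset.card_le_univ T
  set q := (t - scales n) / (2 * scales n + 1) with hq
  set e := Nat.log 16 q with he
  have hs : (0 : ℝ) ≤ s := by positivity
  have h1 : q < 16 ^ (e + 1) := Nat.lt_pow_succ_log_self (by norm_num) _
  have h2 : t - scales n < 16 ^ (e + 1) * (2 * scales n + 1) := by
    rwa [hq, Nat.div_lt_iff_lt_mul (by omega)] at h1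
  have h3 : t ≤ 16 ^ (e + 1) * (4 * scales n) := by
    have h4 : scales n ≤ 16 ^ (e + 1) * scales n := Nat.le_mul_of_pos_left _ (by positivity)
    have h5 : 16 ^ (e + 1) ≤ 16 ^ (e + 1) * scales n := Nat.le_mul_of_pos_right _ hS
    have h6 : 16 ^ (e + 1) * (2 * scales n + 1) =
        2 * (16 ^ (e + 1) * scales n) + 16 ^ (e + 1) := by ring
    have h7 : 16 ^ (e + 1) * (4 * scales n) = 4 * (16 ^ (e + 1) * scales n) := by ring
    omega
  have hT : (t : ℝ) / Real.log n ≤ 16 ^ (e + 3) := by
    rw [div_le_iff₀ hlogn]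
    have h5 : (t : ℝ) ≤ 16 ^ (e + 1) * (4 * scales n) := by exact_mod_cast h3
    have h6 : (0 : ℝ) < 16 ^ (e + 1) := by positivity
    calc (t : ℝ) ≤ 16 ^ (e + 1) * (4 * scales n) := h5
      _ ≤ 16 ^ (e + 1) * (4 * (16 * Real.log n)) :=
          mul_le_mul_of_nonneg_left (mul_le_mul_of_nonneg_left (scales_le hn) (by norm_num))
            h6.le
      _ = 64 * (16 ^ (e + 1) * Real.log n) := by ring
      _ ≤ 256 * (16 ^ (e + 1) * Real.log n) := by
          have : 0 ≤ 16 ^ (e + 1) * Real.log n := by positivity
          linarith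
      _ = 16 ^ (e + 3) * Real.log n := by ring
  have hT0 : 0 ≤ (t : ℝ) / Real.log n := by positivity
  have hT4 : ((t : ℝ) / Real.log n) ^ ((1 : ℝ) / 4) ≤ 2 ^ (e + 3) := by
    have h6 : ((16 : ℝ) ^ (e + 3)) ^ ((1 : ℝ) / 4) = 2 ^ (e + 3) := by
      have : (16 : ℝ) ^ (e + 3) = (2 ^ (e + 3)) ^ (4 : ℕ) := by
        rw [show (16 : ℝ) = 2 ^ 4 by norm_num, ← pow_mul, ← pow_mul]; ring_nf
      rw [this, ← Real.rpow_natCast ((2 : ℝ) ^ (e + 3)) 4, ← Real.rpow_mul (by positivity)]
      norm_num
    rw [← h6]
    exact Real.rpow_le_rpow hT0 hT (by norm_num)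
  by_cases he5 : 5 ≤ e
  · have h7 : 16 ^ e ≤ q := Nat.pow_log_le_self 16 (by
      intro h0
      rw [h0] at he
      simp at he
      omega)
    have h8 : 16 ^ e * (2 * scales n + 1) ≤ t - scales n := by
      rw [hq] at h7
      exact (Nat.le_div_iff_mul_le (by omega)).1 h7
    have h16 : 0 < 16 ^ e := by positivity
    have h8' : dataStart n e + 16 ^ e ≤ t := by
      unfold dataStart
      have h6 : 16 ^ e * (2 * scales n + 1) = 2 * (16 ^ e * scales n) + 16 ^ e := by ring
      omega
    have h9 : e < scales n := by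
      have h10 : 2 ^ (4 * e) ≤ n := by
        rw [pow_mul]
        norm_num
        omega
      have h13 : 4 * e ≤ Nat.log 2 n := Nat.le_log_of_pow_le (by norm_num) h10
      unfold scales
      omega
    have h14 := size_at_scale he5 h9 T h8' C o hC hM
    have h15 : (2 : ℝ) ^ (2 ^ (e - 1) : ℕ) ≤ s + 1 := by exact_mod_cast h14
    have h16 : (1 / 128 : ℝ) * ((t : ℝ) / Real.log n) ^ ((1 : ℝ) / 4) ≤
        ((2 ^ (e - 1) : ℕ) : ℝ) := by
      have h18 : (2 : ℝ) ^ (e + 3) = 16 * 2 ^ (e - 1) := by
        have h17 : (2 : ℝ) ^ e = 2 * 2 ^ (e - 1) := by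
          rw [← pow_succ']; congr 1; omega
        rw [pow_add, h17]; ring
      push_cast
      rw [h18] at hT4
      have : (0 : ℝ) < 2 ^ (e - 1) := by positivity
      linarith
    calc (2 : ℝ) ^ ((1 / 128 : ℝ) * ((t : ℝ) / Real.log n) ^ ((1 : ℝ) / 4))
        ≤ (2 : ℝ) ^ (((2 ^ (e - 1) : ℕ) : ℝ)) :=
          Real.rpow_le_rpow_of_exponent_le (by norm_num) h16
      _ = (2 : ℝ) ^ (2 ^ (e - 1) : ℕ) := Real.rpow_natCast _ _
      _ ≤ s + 1 := h15
      _ ≤ s + 2 := by linarith
  · have h7 : (2 : ℝ) ^ (e + 3) ≤ 128 := by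
      calc (2 : ℝ) ^ (e + 3) ≤ 2 ^ 7 := pow_le_pow_right₀ (by norm_num) (by omega)
        _ = 128 := by norm_num
    have h8 : (1 / 128 : ℝ) * ((t : ℝ) / Real.log n) ^ ((1 : ℝ) / 4) ≤ 1 := by
      linarith
    calc (2 : ℝ) ^ ((1 / 128 : ℝ) * ((t : ℝ) / Real.log n) ^ ((1 : ℝ) / 4))
        ≤ (2 : ℝ) ^ (1 : ℝ) := Real.rpow_le_rpow_of_exponent_le (by norm_num) h8
      _ = 2 := by norm_num
      _ ≤ s + 2 := by linarith

end Pool.Agent.helper41.Semi
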