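import Pool.Agent.helper41.Semi.Lang

/-!
The language has nondeterministic circuits of polynomial size.
-/

namespace Pool.Agent.helper41.Semi

open Pool.Agent.helper38.Neg

/-- The scales that fit into inputs of length `n`. -/
abbrev Sc (n : ℕ) : Type := {e : Fin (scales n) // 5 ≤ (e : ℕ) ∧ dataStart n (e : ℕ) ≤ n}

/-- Guess variables of one scale: the values of the dereferenced pointers and the guess for the
polynomial. -/
abbrev G1 (e : ℕ) : Type := (Fld e × Fld e) ⊕ Guess (Fld e) (2 ^ e / e)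

/-- All guesses. -/
abbrev AllG (n : ℕ) : Type := Σ e : Sc n, G1 (e.1 : ℕ)

lemma rail_lt_n {n : ℕ} (e : Sc n) (k : Fld (e.1 : ℕ) × Fld (e.1 : ℕ)) (r : Fin (scales n))
    (v : Bool) : rail n (idx (e.1 : ℕ) k : ℕ) r v < n :=
  (rail_lt (idx_lt e.2.1 k) r.2).trans_le e.2.2

lemma sc_lt_n {n : ℕ} (e : Sc n) : (e.1 : ℕ) < n := by
  have h1 := e.1.2
  have h2 := e.2.2
  unfold dataStart at h2
  omega

/-- The dereferencing check for one pointer. -/
noncomputable def chk {n : ℕ} (z : Fin n ⊕ AllG n → Bool) (e : Sc n)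
    (k : Fld (e.1 : ℕ) × Fld (e.1 : ℕ)) : Bool :=
  (!(z (Sum.inr ⟨e, Sum.inl k⟩))) ||
    anyB fun p : {p : Fin n // dataStart n (e.1 : ℕ) ≤ (p : ℕ)} =>
      (allB fun r : Fin (scales n) =>
        z (Sum.inl ⟨_, rail_lt_n e k r ((p.1 : ℕ).testBit r)⟩)) && z (Sum.inl p.1)

/-- The verifier. -/
noncomputable def verify (n : ℕ) (z : Fin n ⊕ AllG n → Bool) : Bool :=
  anyB fun e : Sc n =>
    (z (Sum.inl ⟨_, sc_lt_n e⟩) && allB fun k => chk z e k) &&
      check (Fld (e.1 : ℕ)) (2 ^ (e.1 : ℕ) / (e.1 : ℕ)) (fun a => z (Sum.inr ⟨e, a⟩))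

lemma sc_small {n : ℕ} (e : Sc n) : Fintype.card (Fld (e.1 : ℕ)) ≤ n ∧
    2 ^ (e.1 : ℕ) / (e.1 : ℕ) ≤ n ∧
    Fintype.card (Fld (e.1 : ℕ) × Fld (e.1 : ℕ)) ≤ n := by
  obtain ⟨⟨e, h0⟩, h1, h2⟩ := e
  simp only at h1 h2 ⊢
  rw [fld_card h1, fld_sq_card h1]
  have h3 : 16 ^ e ≤ n := by
    have hS : 0 < scales n := by unfold scales; omega
    have h4 : 16 ^ e ≤ 16 ^ e * scales n := Nat.le_mul_of_pos_right _ hS
    unfold dataStart at h2
    omega
  have h5 : 4 ^ e ≤ 16 ^ e := Nat.pow_le_pow_left (by norm_num) _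
  have h6 : 2 ^ e ≤ 16 ^ e := Nat.pow_le_pow_left (by norm_num) _
  have h7 : 2 ^ e / e ≤ 2 ^ e := Nat.div_le_self _ _
  refine ⟨?_, ?_, h3⟩ <;> omega

lemma scales_le_n (n : ℕ) : scales n ≤ n + 1 := by
  unfold scales
  have := Nat.log_le_self 2 n
  omega

lemma card_sc (n : ℕ) : Fintype.card (Sc n) ≤ n + 1 := by
  calc Fintype.card (Sc n) ≤ Fintype.card (Fin (scales n)) := Fintype.card_subtype_le _
    _ = scales n := by simp
    _ ≤ n + 1 := scales_le_n n

lemma card_allG (n : ℕ) : Fintype.card (AllG n) ≤ 3 * (n + 1) ^ 4 := by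
  rw [Fintype.card_sigma]
  calc ∑ e : Sc n, Fintype.card (G1 (e.1 : ℕ)) ≤ ∑ e : Sc n, 3 * (n + 1) ^ 3 := by
        apply Finset.sum_le_sum
        intro e _
        obtain ⟨h1, h2, h2'⟩ := sc_small e
        rw [Fintype.card_sum]
        simp only [Fintype.card_sum, Fintype.card_prod, Fintype.card_fin] at h2' ⊢
        set q := Fintype.card (Fld (e.1 : ℕ))
        set d := 2 ^ (e.1 : ℕ) / (e.1 : ℕ)
        have h3 : d * q ≤ (n + 1) * (n + 1) := Nat.mul_le_mul (by omega) (by omega)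
        have h4 : q * ((d + 1) * q) ≤ (n + 1) * ((n + 1) * (n + 1)) :=
          Nat.mul_le_mul (by omega) (Nat.mul_le_mul (by omega) (by omega))
        have h5 : (n + 1) * (n + 1) ≤ (n + 1) ^ 3 := by
          calc (n + 1) * (n + 1) = (n + 1) ^ 2 := by ring
            _ ≤ (n + 1) ^ 3 := Nat.pow_le_pow_right (by omega) (by norm_num)
        have h6 : (n + 1) * ((n + 1) * (n + 1)) = (n + 1) ^ 3 := by ring
        have h7 : n + 1 ≤ (n + 1) ^ 3 := by
          calc n + 1 = (n + 1) ^ 1 := by ring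
            _ ≤ (n + 1) ^ 3 := Nat.pow_le_pow_right (by omega) (by norm_num)
        omega
    _ = Fintype.card (Sc n) * (3 * (n + 1) ^ 3) := by simp
    _ ≤ (n + 1) * (3 * (n + 1) ^ 3) := Nat.mul_le_mul_right _ (card_sc n)
    _ = 3 * (n + 1) ^ 4 := by ring

lemma verify_cost (n : ℕ) : HasCost (verify n) (60 * (n + 1) ^ 5) := by
  have h1 : ∀ e : Sc n, HasCost (fun z : Fin n ⊕ AllG n → Bool =>
      (z (Sum.inl ⟨_, sc_lt_n e⟩) && allB fun k => chk z e k) &&
      check (Fld (e.1 : ℕ)) (2 ^ (e.1 : ℕ) / (e.1 : ℕ)) (fun a => z (Sum.inr ⟨e, a⟩)))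
      (50 * (n + 1) ^ 4) := by
    intro e
    obtain ⟨h1, h2, h2'⟩ := sc_small e
    have c1 : HasCost (fun z : Fin n ⊕ AllG n → Bool =>
        check (Fld (e.1 : ℕ)) (2 ^ (e.1 : ℕ) / (e.1 : ℕ)) (fun a => z (Sum.inr ⟨e, a⟩)))
        (20 * (n + 1) ^ 4) := by
      refine ((check_cost (Fld (e.1 : ℕ)) (2 ^ (e.1 : ℕ) / (e.1 : ℕ))).rename
        (fun a => (Sum.inr ⟨e, a⟩ : Fin n ⊕ AllG n))).mono ?_
      set q := Fintype.card (Fld (e.1 : ℕ))
      set d := 2 ^ (e.1 : ℕ) / (e.1 : ℕ)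
      have g1 : d * (q + 2) ≤ (n + 1) * (2 * (n + 1)) := Nat.mul_le_mul (by omega) (by omega)
      have g2 : q * (d * (q * q)) ≤ (n + 1) * ((n + 1) * ((n + 1) * (n + 1))) :=
        Nat.mul_le_mul (by omega) (Nat.mul_le_mul (by omega)
          (Nat.mul_le_mul (by omega) (by omega)))
      have g3 : q * q ≤ (n + 1) * (n + 1) := Nat.mul_le_mul (by omega) (by omega)
      have g4 : (n + 1) * ((n + 1) * ((n + 1) * (n + 1))) = (n + 1) ^ 4 := by ring
      have g5 : (n + 1) * (2 * (n + 1)) = 2 * (n + 1) ^ 2 := by ring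
      have g6 : (n + 1) * (n + 1) = (n + 1) ^ 2 := by ring
      have g7 : (n + 1) ^ 2 ≤ (n + 1) ^ 4 := Nat.pow_le_pow_right (by omega) (by norm_num)
      have g8 : (n + 1) ^ 1 ≤ (n + 1) ^ 4 := Nat.pow_le_pow_right (by omega) (by norm_num)
      have g9 : 1 ≤ (n + 1) ^ 4 := Nat.one_le_pow _ _ (by omega)
      rw [pow_one] at g8
      omega
    have c2 : ∀ k, HasCost (fun z : Fin n ⊕ AllG n → Bool => chk z e k)
        (4 * (n + 1) ^ 2 + 3) := by
      intro k
      have c3 : ∀ p : {p : Fin n // dataStart n (e.1 : ℕ) ≤ (p : ℕ)},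
          HasCost (fun z : Fin n ⊕ AllG n → Bool => (allB fun r : Fin (scales n) =>
            z (Sum.inl ⟨_, rail_lt_n e k r ((p.1 : ℕ).testBit r)⟩)) && z (Sum.inl p.1))
            ((Fintype.card (Fin (scales n)) * (0 + 1) + 1) + 0 + 1) := fun p =>
        (HasCost.all _ _ fun r => HasCost.var _).and (HasCost.var _)
      have c4 := (((HasCost.var (Sum.inr ⟨e, Sum.inl k⟩ : Fin n ⊕ AllG n)).not).or
        (HasCost.any _ _ c3))
      refine HasCost.mono c4 ?_
      have g1 : Fintype.card {p : Fin n // dataStart n (e.1 : ℕ) ≤ (p : ℕ)} ≤ n := by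
        calc _ ≤ Fintype.card (Fin n) := Fintype.card_subtype_le _
          _ = n := by simp
      have g2 := scales_le_n n
      simp only [Fintype.card_fin]
      have g3 : Fintype.card {p : Fin n // dataStart n (e.1 : ℕ) ≤ (p : ℕ)} *
          (scales n * (0 + 1) + 1 + 0 + 1 + 1) ≤ (n + 1) * (4 * (n + 1)) :=
        Nat.mul_le_mul (by omega) (by omega)
      have g4 : (n + 1) * (4 * (n + 1)) = 4 * (n + 1) ^ 2 := by ring
      omega
    have c5 := (HasCost.var (Sum.inl ⟨_, sc_lt_n e⟩ : Fin n ⊕ AllG n)).and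
      (HasCost.all _ _ c2)
    refine HasCost.mono (c5.and c1) ?_
    have g0 : Fintype.card (Fld (e.1 : ℕ) × Fld (e.1 : ℕ)) * (4 * (n + 1) ^ 2 + 3 + 1) ≤
        (n + 1) * (8 * (n + 1) ^ 2) := by
      have : 1 ≤ (n + 1) ^ 2 := Nat.one_le_pow _ _ (by omega)
      exact Nat.mul_le_mul (by omega) (by omega)
    have g4 : (n + 1) * (8 * (n + 1) ^ 2) = 8 * (n + 1) ^ 3 := by ring
    have g7 : (n + 1) ^ 3 ≤ (n + 1) ^ 4 := Nat.pow_le_pow_right (by omega) (by norm_num)
    have g9 : 1 ≤ (n + 1) ^ 4 := Nat.one_le_pow _ _ (by omega)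
    omega
  refine (HasCost.any _ _ h1).mono ?_
  have h2 := card_sc n
  calc Fintype.card (Sc n) * (50 * (n + 1) ^ 4 + 1) + 1
      ≤ (n + 1) * (50 * (n + 1) ^ 4 + 1) + 1 :=
        Nat.add_le_add_right (Nat.mul_le_mul_right _ h2) _
    _ ≤ (n + 1) * (50 * (n + 1) ^ 4 + (n + 1) ^ 4) + (n + 1) ^ 5 := by
        have h3 : 1 ≤ (n + 1) ^ 4 := Nat.one_le_pow _ _ (by omega)
        have h4 : 1 ≤ (n + 1) ^ 5 := Nat.one_le_pow _ _ (by omega)
        exact Nat.add_le_add (Nat.mul_le_mul_left _ (by omega)) h4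
    _ = 52 * (n + 1) ^ 5 := by ring
    _ ≤ _ := Nat.mul_le_mul_right _ (by norm_num)

lemma chk_iff {n : ℕ} (x : Fin n → Bool) (y : AllG n → Bool) (e : Sc n)
    (k : Fld (e.1 : ℕ) × Fld (e.1 : ℕ)) :
    chk (Sum.elim x y) e k = true ↔
      (y ⟨e, Sum.inl k⟩ = true → deref x (e.1 : ℕ) k = true) := by
  classical
  have h1 : (anyB fun p : {p : Fin n // dataStart n (e.1 : ℕ) ≤ (p : ℕ)} =>
      (allB fun r : Fin (scales n) =>
        (Sum.elim x y : Fin n ⊕ AllG n → Bool)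
          (Sum.inl ⟨_, rail_lt_n e k r ((p.1 : ℕ).testBit r)⟩)) &&
          (Sum.elim x y : Fin n ⊕ AllG n → Bool) (Sum.inl p.1)) = true ↔
      deref x (e.1 : ℕ) k = true := by
    rw [anyB_iff]
    unfold deref
    rw [decide_eq_true_iff]
    simp only [Sum.elim_inl, Bool.and_eq_true, allB_iff]
    constructor
    · rintro ⟨p, h1, h2⟩
      refine ⟨p.1, p.2, fun r hr => ?_, ?_⟩
      · unfold Pool.Agent.helper38.Neg.get
        rw [dif_pos (rail_lt_n e k ⟨r, hr⟩ ((p.1 : ℕ).testBit r))]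
        exact h1 ⟨r, hr⟩
      · unfold Pool.Agent.helper38.Neg.get
        rw [dif_pos p.1.2]
        exact h2
    · rintro ⟨p, h1, h2, h3⟩
      have hp : p < n := by
        by_contra hcon
        unfold Pool.Agent.helper38.Neg.get at h3
        rw [dif_neg hcon] at h3
        exact absurd h3 (by simp)
      refine ⟨⟨⟨p, hp⟩, h1⟩, fun r => ?_, ?_⟩
      · have h4 := h2 r r.2
        unfold Pool.Agent.helper38.Neg.get at h4
        rwa [dif_pos (rail_lt_n e k r (p.testBit r))] at h4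
      · unfold Pool.Agent.helper38.Neg.get at h3
        rwa [dif_pos hp] at h3
  unfold chk
  rw [Bool.or_eq_true, h1]
  simp only [Sum.elim_inr, Bool.not_eq_true']
  constructor
  · rintro (h | h) h2
    · rw [h] at h2; exact absurd h2 (by simp)
    · exact h
  · intro h
    by_cases h2 : y ⟨e, Sum.inl k⟩ = true
    · exact Or.inr (h h2)
    · exact Or.inl (by simpa using h2)

lemma verify_correct (n : ℕ) (x : Fin n → Bool) :
    slang n x ↔ ∃ y : AllG n → Bool, verify n (Sum.elim x y) = true := by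
  classical
  unfold verify
  constructor
  · rintro ⟨e, h1, h2, h3, h4, h5⟩
    let ε : Sc n := ⟨⟨e, h2⟩, h1, h3⟩
    obtain ⟨y0, hy0⟩ := (check_correct _ _).1 h5
    let w0 : G1 e → Bool := Sum.elim (deref x e) y0
    let y : AllG n → Bool := fun a => decide (∃ w, a = ⟨ε, w⟩ ∧ w0 w = true)
    have hy : ∀ w, y ⟨ε, w⟩ = w0 w := by
      intro w
      simp only [y]
      rw [Bool.eq_iff_iff, decide_eq_true_iff]
      constructor
      · rintro ⟨w', h5, h6⟩
        have h7 : w = w' := eq_of_heq (Sigma.mk.inj h5).2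
        rw [h7]; exact h6
      · intro h5
        exact ⟨w, rfl, h5⟩
    refine ⟨y, (anyB_iff _).2 ⟨ε, ?_⟩⟩
    rw [Bool.and_eq_true, Bool.and_eq_true]
    refine ⟨⟨?_, ?_⟩, ?_⟩
    · have h6 : e < n := sc_lt_n ε
      unfold Pool.Agent.helper38.Neg.get at h4
      rw [dif_pos h6] at h4
      exact h4
    · rw [allB_iff]
      intro k
      rw [chk_iff]
      intro h6
      rw [hy] at h6
      exact h6
    · have h6 : (fun a => (Sum.elim x y : Fin n ⊕ AllG n → Bool) (Sum.inr ⟨ε, a⟩)) =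
          Sum.elim (deref x e) y0 := by
        funext a
        exact hy a
      have h7 : check (Fld e) (2 ^ e / e)
          (fun a => (Sum.elim x y : Fin n ⊕ AllG n → Bool) (Sum.inr ⟨ε, a⟩)) = true := by
        rw [h6]
        exact hy0
      exact h7
  · rintro ⟨y, hy⟩
    obtain ⟨e, he⟩ := (anyB_iff _).1 hy
    rw [Bool.and_eq_true, Bool.and_eq_true, allB_iff] at he
    obtain ⟨⟨g1, g2⟩, g3⟩ := he
    refine ⟨(e.1 : ℕ), e.2.1, e.1.2, e.2.2, ?_, ?_⟩
    · unfold Pool.Agent.helper38.Neg.get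
      rw [dif_pos (sc_lt_n e)]
      exact g1
    · have h1 : PolyFn (Fld (e.1 : ℕ)) (2 ^ (e.1 : ℕ) / (e.1 : ℕ))
          (fun k => y ⟨e, Sum.inl k⟩) := by
        rw [check_correct]
        refine ⟨fun w => y ⟨e, Sum.inr w⟩, ?_⟩
        have h6 : (Sum.elim (fun k => y ⟨e, Sum.inl k⟩) (fun w => y ⟨e, Sum.inr w⟩)) =
            (fun a => (Sum.elim x y : Fin n ⊕ AllG n → Bool) (Sum.inr ⟨e, a⟩)) := by
          funext a
          rcases a with a | a <;> rfl
        rw [h6]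
        exact g3
      refine polyFn_mono _ ?_ h1
      intro k
      by_cases hk : y ⟨e, Sum.inl k⟩ = true
      · rw [(chk_iff x y e k).1 (g2 k) hk]
        cases y ⟨e, Sum.inl k⟩ <;> simp
      · have hk' : y ⟨e, Sum.inl k⟩ = false := by simpa using hk
        show y ⟨e, Sum.inl k⟩ ≤ _
        rw [hk']
        simp

/-- The language lies in `NP/Poly`. -/
theorem slang_inNPPoly : InNPPoly slang := by
  refine ⟨60 * (Polynomial.X + 1) ^ 5, fun n => ?_⟩
  have hev : (60 * (Polynomial.X + 1) ^ 5 : Polynomial ℕ).eval n = 60 * (n + 1) ^ 5 := by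
    simp
  rw [hev]
  let W := AllG n
  let eqv : W ≃ Fin (Fintype.card W) := Fintype.equivFin W
  have hW : Fintype.card W ≤ 60 * (n + 1) ^ 5 := by
    have h1 := card_allG n
    have h2 : (n + 1) ^ 4 ≤ (n + 1) ^ 5 := Nat.pow_le_pow_right (by omega) (by norm_num)
    change Fintype.card (AllG n) ≤ _
    omega
  let φ : Fin n ⊕ W → Fin (n + Fintype.card W) :=
    Sum.elim (Fin.castAdd _) (fun w => Fin.natAdd n (eqv w))
  obtain ⟨L, h1, h2, h3⟩ := (verify_cost n).rename φ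
  obtain ⟨C, hC⟩ := h1.toCircuit
  obtain ⟨o, ho⟩ := hC _ h3
  refine ⟨Fintype.card W, L.length, hW, h2, C, o, fun x => ?_⟩
  rw [verify_correct]
  have hφ : ∀ y : Fin (Fintype.card W) → Bool,
      (Fin.append x y) ∘ φ = Sum.elim x (y ∘ eqv) := by
    intro y
    funext a
    rcases a with i | w
    · simp [φ]
    · simp [φ]
  constructor
  · rintro ⟨y, hy⟩
    refine ⟨y ∘ eqv.symm, ?_⟩
    rw [ho, hφ]
    have : (y ∘ eqv.symm) ∘ eqv = y := by funext w; simp
    rw [this]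
    exact hy
  · rintro ⟨y, hy⟩
    rw [ho, hφ] at hy
    exact ⟨_, hy⟩

end Pool.Agent.helper41.Semi
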